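import Pool.Agent.Helper18.RD.Stmts

/-! Row GR of RD. -/

set_option autoImplicit false

namespace Pool.Agent.Helper26.RD

open Finset Pool.Agent.Helper18.RD

theorem mm_sq {q a n : ℕ} (h : IsSquare (q * n + a)) : mm q a n * mm q a n = q * n + a := by
  obtain ⟨r, hr⟩ := h
  rw [mm, hr, Nat.sqrt_eq]

theorem sg_cases (q a b n l : ℕ) : sg q a b n l = 1 ∨ sg q a b n l = -1 := by
  unfold sg; split_ifs <;> simp

theorem pw_pos {q l : ℕ} (hl : l ∈ OP q) : 0 < pw q l := by
  have h1 : l ∈ q.primeFactors := Finset.mem_of_mem_erase hl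
  exact pow_pos (Nat.pos_of_mem_primeFactors h1) _

theorem EE_pos (q : ℕ) : 0 < EE q := pow_pos (by norm_num) _

theorem sum_log (q a b n n' : ℕ) :
    Real.log (EE q) + ∑ l ∈ OP q, wt q l * ((sg q a b n l * sg q a b n' l : ℤ) : ℝ) =
      Real.log (uu q a b n n') - Real.log (vv q a b n n') := by
  have hE : (EE q : ℝ) ≠ 0 := by exact_mod_cast (EE_pos q).ne'
  have hP : ∀ (f : ℕ → Prop) [DecidablePred f],
      Real.log ((∏ l ∈ (OP q).filter f, pw q l : ℕ) : ℝ) = ∑ l ∈ (OP q).filter f, wt q l := by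
    intro f _
    rw [Nat.cast_prod, Real.log_prod]
    · rfl
    · intro l hl
      have := pw_pos (Finset.mem_of_mem_filter l hl)
      exact_mod_cast this.ne'
  have hu : Real.log (uu q a b n n') = Real.log (EE q) +
      ∑ l ∈ (OP q).filter (fun l => sg q a b n l = sg q a b n' l), wt q l := by
    unfold uu
    rw [Nat.cast_mul, Real.log_mul hE, hP]
    have : 0 < ∏ l ∈ (OP q).filter (fun l => sg q a b n l = sg q a b n' l), pw q l :=
      Finset.prod_pos (fun l hl => pw_pos (Finset.mem_of_mem_filter l hl))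
    exact_mod_cast this.ne'
  have hv : Real.log (vv q a b n n') =
      ∑ l ∈ (OP q).filter (fun l => sg q a b n l ≠ sg q a b n' l), wt q l := by
    unfold vv
    rw [hP]
  rw [hu, hv, ← Finset.sum_filter_add_sum_filter_not (OP q)
    (fun l => sg q a b n l = sg q a b n' l)
    (fun l => wt q l * ((sg q a b n l * sg q a b n' l : ℤ) : ℝ))]
  have h1 : ∑ l ∈ (OP q).filter (fun l => sg q a b n l = sg q a b n' l),
      wt q l * ((sg q a b n l * sg q a b n' l : ℤ) : ℝ) =
      ∑ l ∈ (OP q).filter (fun l => sg q a b n l = sg q a b n' l), wt q l := by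
    refine Finset.sum_congr rfl (fun l hl => ?_)
    rw [Finset.mem_filter] at hl
    rw [hl.2]
    rcases sg_cases q a b n' l with h | h <;> simp [h]
  have h2 : ∑ l ∈ (OP q).filter (fun l => ¬ (sg q a b n l = sg q a b n' l)),
      wt q l * ((sg q a b n l * sg q a b n' l : ℤ) : ℝ) =
      - ∑ l ∈ (OP q).filter (fun l => sg q a b n l ≠ sg q a b n' l), wt q l := by
    rw [← Finset.sum_neg_distrib]
    refine Finset.sum_congr rfl (fun l hl => ?_)
    rw [Finset.mem_filter] at hl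
    have hne := hl.2
    rcases sg_cases q a b n l with h | h <;> rcases sg_cases q a b n' l with h' | h'
    · exact absurd (h.trans h'.symm) hne
    · simp [h, h']
    · simp [h, h']
    · exact absurd (h.trans h'.symm) hne
  rw [h1, h2]
  ring

/-- GR -/
theorem st_GR (hUV : ST_UV) : ST_GR := by
  intro N q a b n n' h hn hn'
  obtain ⟨e1, e2, e3, e4, hc, hd⟩ := hUV q a b n n' h
  set u : ℕ := uu q a b n n' with hu
  set v : ℕ := vv q a b n n' with hv
  set c : ℤ := cc q a b n n' with hcd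
  set d : ℤ := dd q a b n n' with hdd
  have hm := mm_sq h.hn
  have hm' := mm_sq h.hn'
  set m : ℕ := mm q a n with hmd
  set m' : ℕ := mm q a n' with hmd'
  have hq : 1 ≤ q := h.q1
  have hN : 1 ≤ N := by omega
  have hu0 : 0 < u := Nat.pos_of_ne_zero (fun h0 => by rw [h0] at e1; simp at e1; omega)
  have hv0 : 0 < v := Nat.pos_of_ne_zero (fun h0 => by rw [h0] at e1; simp at e1; omega)
  have hk : kap q = 1 ∨ kap q = 2 := by unfold kap; split_ifs <;> simp
  -- real versions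
  have U0 : (0 : ℝ) < u := by exact_mod_cast hu0
  have V0 : (0 : ℝ) < v := by exact_mod_cast hv0
  have V1 : (1 : ℝ) ≤ v := by exact_mod_cast hv0
  have Q0 : (1 : ℝ) ≤ q := by exact_mod_cast hq
  have A0 : (0 : ℝ) ≤ a := Nat.cast_nonneg a
  have N0 : (1 : ℝ) ≤ N := by exact_mod_cast hN
  have k1 : (1 : ℝ) ≤ kap q ∧ (kap q : ℝ) ≤ 2 := by
    rcases hk with hk | hk <;> rw [hk] <;> norm_num
  have E1 : (u : ℝ) * v * kap q = q := by exact_mod_cast e1
  have E3 : (v : ℝ) * d = m + m' := by exact_mod_cast e3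
  have D1 : (1 : ℝ) ≤ d := by exact_mod_cast hd
  have hdk : |c| * d = kap q * |(n : ℤ) - n'| := by
    have := congrArg abs e4
    rw [abs_mul, abs_mul, abs_of_pos (lt_of_lt_of_le one_pos hd), Nat.abs_cast] at this
    exact this
  have hnn : |(n : ℤ) - n'| ≤ N := by rw [abs_le]; omega
  have hdN : d ≤ kap q * N := by
    have h1 : 1 ≤ |c| := Int.one_le_abs hc
    calc d = 1 * d := (one_mul d).symm
      _ ≤ |c| * d := mul_le_mul_of_nonneg_right h1 (by omega)
      _ = kap q * |(n : ℤ) - n'| := hdk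
      _ ≤ kap q * N := mul_le_mul_of_nonneg_left hnn (by positivity)
  have D2 : (d : ℝ) ≤ kap q * N := by exact_mod_cast hdN
  have M2 : (m : ℝ) * m = q * n + a := by exact_mod_cast hm
  have M2' : (m' : ℝ) * m' = q * n' + a := by exact_mod_cast hm'
  have nN : (n : ℝ) ≤ N := by exact_mod_cast hn.le
  have nN' : (n' : ℝ) ≤ N := by exact_mod_cast hn'.le
  have m0 : (0 : ℝ) ≤ m := Nat.cast_nonneg m
  have m0' : (0 : ℝ) ≤ m' := Nat.cast_nonneg m'
  have Mup : ((m : ℝ) + m') ^ 2 ≤ 4 * (q * N + a) := by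
    have h1 : (q : ℝ) * n ≤ q * N := by gcongr
    have h2 : (q : ℝ) * n' ≤ q * N := by gcongr
    nlinarith [sq_nonneg ((m : ℝ) - m')]
  have Mlo : (q : ℝ) + a ≤ ((m : ℝ) + m') ^ 2 := by
    have hne := h.ne
    have h3 : 0 ≤ (m : ℝ) * m' := mul_nonneg m0 m0'
    have h5 : 1 ≤ n ∨ 1 ≤ n' := by omega
    rcases h5 with h5 | h5
    · have h4 : (1 : ℝ) ≤ n := by exact_mod_cast h5
      have h6 : (q : ℝ) * 1 ≤ q * n := by gcongr
      nlinarith [mul_self_nonneg (m' : ℝ)]
    · have h4 : (1 : ℝ) ≤ n' := by exact_mod_cast h5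
      have h6 : (q : ℝ) * 1 ≤ q * n' := by gcongr
      nlinarith [mul_self_nonneg (m : ℝ)]
  have hlog := sum_log q a b n n'
  have X0 : (0 : ℝ) < 8 * ((a : ℝ) / q + N) := by positivity
  have key : wi N q a + ∑ l ∈ OP q, wt q l * ((sg q a b n l * sg q a b n' l : ℤ) : ℝ) =
      Real.log (8 * ((a : ℝ) / q + N) * u / v) := by
    rw [Real.log_div (by positivity) V0.ne', Real.log_mul X0.ne' U0.ne', wi]
    linarith
  rw [key]
  have Qp : (0 : ℝ) < q := by linarith
  have hXq : 8 * ((a : ℝ) / q + N) * u / v = 8 * (q * N + a) * u / (q * v) := by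
    field_simp
    ring
  rw [hXq]
  constructor
  · apply Real.log_nonneg
    rw [le_div_iff₀ (by positivity), one_mul]
    -- q v = u v^2 kap
    have h1 : (v : ℝ) ^ 2 ≤ (m + m') ^ 2 := by
      rw [← E3]
      have : (v : ℝ) ≤ v * d := by nlinarith
      exact pow_le_pow_left₀ V0.le this 2
    calc (q : ℝ) * v = u * (v ^ 2) * kap q := by rw [← E1]; ring
      _ ≤ u * (m + m') ^ 2 * 2 := by
          apply mul_le_mul (mul_le_mul_of_nonneg_left h1 U0.le) k1.2 (by linarith [k1.1])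
          positivity
      _ ≤ u * (4 * (q * N + a)) * 2 := by gcongr
      _ = 8 * (q * N + a) * u := by ring
  · rw [HH, show (3 : ℝ) * Real.log N = Real.log ((N : ℝ) ^ 3) by rw [Real.log_pow]; norm_num,
      ← Real.log_mul (by positivity) (by norm_num)]
    apply Real.log_le_log (by positivity)
    rw [div_le_iff₀ (by positivity)]
    -- 8 (qN+a) u ≤ 16 N^3 q v
    have hK : (0 : ℝ) < kap q := by linarith [k1.1]
    have D0 : (0 : ℝ) < d := by linarith
    have h1 : ((q : ℝ) * N + a) * d ^ 2 ≤ 2 * N ^ 3 * kap q * (v * d) ^ 2 := by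
      rw [E3]
      have h2 : (d : ℝ) ^ 2 ≤ (kap q * N) ^ 2 := pow_le_pow_left₀ D0.le D2 2
      have h3 : (q : ℝ) * N + a ≤ N * (m + m') ^ 2 := by
        calc (q : ℝ) * N + a ≤ N * (q + a) := by nlinarith
          _ ≤ N * (m + m') ^ 2 := by gcongr
      calc ((q : ℝ) * N + a) * (d : ℝ) ^ 2 ≤
            ((N : ℝ) * ((m : ℝ) + m') ^ 2) * ((kap q : ℝ) * N) ^ 2 := by
            apply mul_le_mul h3 h2 (by positivity) (by positivity)
        _ = (kap q : ℝ) * ((N : ℝ) ^ 3 * kap q * ((m : ℝ) + m') ^ 2) := by ring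
        _ ≤ 2 * ((N : ℝ) ^ 3 * kap q * ((m : ℝ) + m') ^ 2) :=
            mul_le_mul_of_nonneg_right k1.2 (by positivity)
        _ = 2 * (N : ℝ) ^ 3 * kap q * ((m : ℝ) + m') ^ 2 := by ring
    have h4 : ((q : ℝ) * N + a) ≤ 2 * N ^ 3 * kap q * v ^ 2 := by
      have h5 : ((q : ℝ) * N + a) * d ^ 2 ≤ (2 * N ^ 3 * kap q * v ^ 2) * d ^ 2 := by
        refine h1.trans (le_of_eq ?_)
        ring
      exact le_of_mul_le_mul_right h5 (by positivity)
    calc 8 * ((q : ℝ) * N + a) * u ≤ 8 * (2 * N ^ 3 * kap q * v ^ 2) * u := by gcongr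
      _ = (N : ℝ) ^ 3 * 16 * (q * v) := by rw [← E1]; ring

end Pool.Agent.Helper26.RD
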